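import Pool.Agent.N522.WI.Defs

/-!
# MP_307c8f_gt: invariance of Witten's conjecture under surgery operations
-/

open Pool.Agent.N522.WI

/-- Q1 holds for `X` if and only if it holds for a manifold obtained from `X` by blow-up, logarithmic
transformation or knot surgery in a cusp neighbourhood; if Q1 holds for `Y` (with non-vanishing
Seiberg-Witten invariants), Q1 for `X` is equivalent to Q1 for the fibre sum of `X` and `Y`; and
the same along all chains of these operations and their inverses. -/
theorem Pool.Agent.Results.MP_307c8f_gt.SurgeryInvariance.result :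
    ∀ T : Theory, Facts T →
      (∀ X Y : T.Man, T.Move X Y → (Q1For X ↔ Q1For Y)) ∧
      (∀ X Y Z : T.Man, T.Sum X Y Z → Q1For Y → T.S Y ≠ 0 → (Q1For X ↔ Q1For Z)) ∧
      ∀ B : T.Man → Prop, (∀ Y, B Y → Q1For Y ∧ T.S Y ≠ 0) →
        ∀ X Y : T.Man, Linked B X Y → (Q1For X ↔ Q1For Y) :=
  fun _ F => ⟨move_iff F, sum_iff F, linked_iff F⟩
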